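import Pool.Agent.H175G.Stmts2

/-! `R ∖ N(v)` a disjoint union of cliques, in `C₅`-free graphs: assembly. -/

namespace Pool.Agent.H409R2.GP

open Finset Classical
open Pool.Agent.H175G

theorem zp_stmt (_hT : TwoStmt) (hZ : ZStmt) (ha : ZpAStmt) (hb : ZpBStmt) : ZpStmt := by
  obtain ⟨Kz, hZ⟩ := hZ
  obtain ⟨Ka, ha⟩ := ha
  obtain ⟨Kb, hb⟩ := hb
  refine ⟨(((Kz + 1) * 2 ^ 2 + Kz + Ka + Kb) + 1) * 2 ^ 1, ?_⟩
  intro V G hg hp hc v R hR
  set M := R.filter (fun x => G.Adj v x) with hM
  set A := (R.filter (fun x => ¬ G.Adj v x)).erase v with hA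
  have hMv : ∀ m ∈ M, G.Adj v m := by
    intro m hm; rw [hM, mem_filter] at hm; exact hm.2
  have hAv : ∀ x ∈ A, ¬ G.Adj v x := by
    intro x hx; rw [hA, mem_erase, mem_filter] at hx; exact hx.2.2
  have hvA : v ∉ A := by rw [hA]; simp
  have hcl : Clus G A := hR.sub (by rw [hA]; exact erase_subset _ _)
  have hRs : R \ {v} ⊆ M ∪ A := by
    intro x hx
    simp only [mem_sdiff, mem_singleton] at hx
    rw [mem_union, hM, hA, mem_filter, mem_erase, mem_filter]
    by_cases h : G.Adj v x
    · left; exact ⟨hx.1, h⟩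
    · right; exact ⟨hx.2, hx.1, h⟩
  apply BD.of_sdiff (X := {v}) (c := 1) _ (by simp)
  refine BD.sub ?_ hRs
  by_cases h1 : ∃ a ∈ A, ∃ a' ∈ A, ∃ b ∈ A, ∃ b' ∈ A, G.Adj a a' ∧ G.Adj b b' ∧ ¬ G.Adj a b ∧ a ≠ b
  · exact (hb V G hg hp hc v M A hMv hAv hvA hcl h1).mono (by omega)
  · by_cases h2 : Ind G A
    · exact (hZ V G hg hp v M A ⟨hMv, hAv, h2, hvA⟩).mono (by omega)
    · unfold Ind at h2
      push Not at h2
      obtain ⟨a, haA, a', haA', haa⟩ := h2
      set Q := A.filter (fun x => x = a ∨ G.Adj a x) with hQ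
      have hQA : Q ⊆ A := filter_subset _ _
      have hQc : Clq G Q := by
        intro x hx y hy hxy
        rw [hQ, mem_filter] at hx hy
        obtain ⟨hx1, rfl | hx2⟩ := hx
        · obtain ⟨hy1, rfl | hy2⟩ := hy
          · exact absurd rfl hxy
          · exact hy2
        · obtain ⟨hy1, rfl | hy2⟩ := hy
          · exact hx2.symm
          · exact hcl x hx1 a haA y hy1 hx2.symm hy2 hxy
      have hII : Ind G (A \ Q) := by
        intro b hb' b' hb'' hbb
        rw [mem_sdiff, hQ, mem_filter] at hb'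
        rw [mem_sdiff] at hb''
        apply h1
        refine ⟨a, haA, a', haA', b, hb'.1, b', hb''.1, haa, hbb, ?_, ?_⟩
        · intro h; exact hb'.2 ⟨hb'.1, Or.inr h⟩
        · rintro rfl; exact hb'.2 ⟨hb'.1, Or.inl rfl⟩
      have hAn : Anti G Q (A \ Q) := by
        intro x hx y hy hxy
        rw [hQ, mem_filter] at hx
        rw [mem_sdiff, hQ, mem_filter] at hy
        apply hy.2
        refine ⟨hy.1, ?_⟩
        obtain ⟨hx1, rfl | hx2⟩ := hx
        · right; exact hxy
        · by_cases h : y = a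
          · left; exact h
          · right; exact hcl a haA x hx1 y hy.1 hx2 hxy (fun h' => h h'.symm)
      by_cases h3 : 3 ≤ Q.card
      · have := ha V G hg hp hc v M Q (A \ Q) hMv (by
          intro x hx
          rw [union_sdiff_of_subset hQA] at hx
          exact hAv x hx) (fun h => hvA (hQA h)) (fun h => hvA (mem_sdiff.1 h).1) hQc hII hAn h3
        rw [union_assoc, union_sdiff_of_subset hQA] at this
        exact this.mono (by omega)
      · have h4 := hZ V G hg hp v M (A \ Q) ⟨hMv, fun n hn => hAv n (mem_sdiff.1 hn).1, hII,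
          fun h => hvA (mem_sdiff.1 h).1⟩
        have h5 : BD G Kz ((M ∪ A) \ Q) := h4.sub (by
          intro x hx
          rw [mem_sdiff, mem_union] at hx
          rw [mem_union, mem_sdiff]
          rcases hx.1 with h | h
          · left; exact h
          · right; exact ⟨h, hx.2⟩)
        exact (BD.of_sdiff (c := 2) h5 (by omega)).mono (by omega)

end Pool.Agent.H409R2.GP
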